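import Pool.Agent.helper88.T8.Spec

set_option autoImplicit false

/-!
# T8, row HJ8 (MP_16912e_nt): the injection into the tuples
-/

namespace Pool.Agent.T8

open Finset NumberField Pool.Agent.helper3.FT Pool.Agent.helper47.RA Pool.Agent.T5 Pool.Agent.T6 Pool.Agent.T7
open scoped nonZeroDivisors

/-- what TF8 needs about one pair -/
def HJ8_good (κ N Y : ℝ) (x : ℕ × Tpl) : Prop :=
  1 ≤ x.1 ∧ Ce κ (N * (x.1 : ℝ) ^ 2) Y x.2 ∧ (x.1 : ℤ) ^ 2 ∣ dis x.2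

lemma HJ8_tup {K : Type} [Field K] [NumberField K] (Q : QF K) (κ N Y : ℝ) (hD1 : N / 2 < -(Q.D : ℝ))
    (hD2 : -(Q.D : ℝ) ≤ N) (x : Ideal (𝓞 K) × 𝓞 K) (hx : x ∈ GP8 Q κ Y) (γ : 𝓞 K)
    (hA : Adm Q x.1 x.2 γ) (t : Tpl) (ht : TupOf Q x.1 x.2 γ (gd Q x.2 γ) t) : HJ8_good κ N Y (gd Q x.2 γ, t) := by
  obtain ⟨h1, h2, h3, h4, -⟩ := hx
  have hg : 1 ≤ gd Q x.2 γ := by
    have h0 := hA.n0
    unfold gd
    exact Int.gcd_pos_of_ne_zero_left _ h0.ne'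
  have hZ : (t.2.2.2 : ℝ) = (Ideal.absNorm x.1 : ℝ) := by
    rw [ht.Z]
    norm_cast
  have hL : (lam t : ℝ) = (lamI x.1 x.2 : ℝ) := by
    rw [ht.L]
    norm_cast
  have hdis : (dis t : ℝ) = (Q.D : ℝ) * (gd Q x.2 γ : ℝ) ^ 2 := by
    have h1 := ht.D
    rw [h1]
    push_cast
    ring
  have hg2 : (0 : ℝ) < (gd Q x.2 γ : ℝ) ^ 2 := by
    have : (0 : ℝ) < (gd Q x.2 γ : ℝ) := by exact_mod_cast hg
    positivity
  refine ⟨hg, ?_, ?_⟩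
  · refine ⟨ht.tt, ?_, ?_, ?_, ?_, ?_, ?_⟩
    · show κ * Y ≤ (t.2.2.2 : ℝ)
      rw [hZ]
      exact h1
    · show (t.2.2.2 : ℝ) ≤ Y
      rw [hZ]
      exact h2
    · show κ * Y ≤ (lam t : ℝ)
      rw [hL]
      exact h3
    · show (lam t : ℝ) ≤ Y
      rw [hL]
      exact h4
    · show N * (gd Q x.2 γ : ℝ) ^ 2 / 2 < -(dis t : ℝ)
      rw [hdis]
      nlinarith
    · show -(dis t : ℝ) ≤ N * (gd Q x.2 γ : ℝ) ^ 2
      rw [hdis]
      nlinarith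
  · show ((gd Q x.2 γ : ℕ) : ℤ) ^ 2 ∣ dis t
    rw [ht.D]
    exact dvd_mul_left _ _

lemma HJ8_one (hALG : ALG_stmt) (κ N Y : ℝ) (hN : 10 ≤ N) (D : ℤ) (hD : D ∈ DN N) :
    ∃ FD : Finset (ℕ × Tpl), (FD.card : ℝ) = SF (fG8 κ Y) D ∧
      ∀ x ∈ FD, HJ8_good κ N Y x ∧ dis x.2 = D * (x.1 : ℤ) ^ 2 := by
  classical
  by_cases h : Nonempty (Fld D)
  · have hSF : SF (fG8 κ Y) D = ((GP8 h.some.Q κ Y).ncard : ℝ) := by
      unfold SF
      rw [dif_pos h]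
      rfl
    obtain ⟨E, hE⟩ : ∃ E : Fld D, E = h.some := ⟨_, rfl⟩
    rw [hSF, ← hE]
    by_cases hfin : (GP8 E.Q κ Y).Finite
    · unfold DN at hD
      rw [mem_filter, mem_Icc] at hD
      obtain ⟨⟨hD1, -⟩, -, hD3⟩ := hD
      have hDE : (E.Q.D : ℝ) = D := by rw [E.hD]
      have hD4 : -(E.Q.D : ℝ) ≤ N := by
        rw [hDE]
        have h5 : -(D : ℝ) ≤ (⌊N⌋ : ℝ) := by
          have : -D ≤ ⌊N⌋ := by omega
          exact_mod_cast this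
        exact h5.trans (Int.floor_le N)
      have hD5 : N / 2 < -(E.Q.D : ℝ) := by rw [hDE]; exact hD3
      have hD6 : E.Q.D < -4 := by
        have : (E.Q.D : ℝ) < ((-4 : ℤ) : ℝ) := by push_cast; linarith
        exact_mod_cast this
      obtain ⟨φ, hφ1, hφ2, -⟩ := hALG E.K E.Q E.fin hD6
      have hex : ∀ x ∈ GP8 E.Q κ Y, ∃ γ, Adm E.Q x.1 x.2 γ := fun x hx => hx.2.2.2.2
      choose! γ hγ1 using hex
      refine ⟨hfin.toFinset.image (fun x => (gd E.Q x.2 (γ x), φ x.1 x.2)), ?_, ?_⟩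
      · rw [card_image_of_injOn, Set.ncard_eq_toFinset_card _ hfin]
        intro x hx x' hx' hxx
        rw [Set.Finite.coe_toFinset] at hx hx'
        have h7 := Prod.ext_iff.1 hxx
        have h6 := hφ2 x.1 x.2 (γ x) x'.1 x'.2 (γ x') (hγ1 x hx) (hγ1 x' hx') h7.1 h7.2
        exact Prod.ext h6.1 h6.2
      · intro y hy
        obtain ⟨x, hx, rfl⟩ := mem_image.1 hy
        rw [Set.Finite.mem_toFinset] at hx
        have hT := hφ1 x.1 x.2 (γ x) (hγ1 x hx)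
        refine ⟨HJ8_tup E.Q κ N Y hD5 hD4 x hx (γ x) (hγ1 x hx) _ hT, ?_⟩
        show dis (φ x.1 x.2) = D * ((gd E.Q x.2 (γ x) : ℕ) : ℤ) ^ 2
        rw [hT.D, E.hD]
    · refine ⟨∅, ?_, by simp⟩
      rw [Set.Infinite.ncard hfin]
      simp
  · refine ⟨∅, ?_, by simp⟩
    unfold SF
    rw [dif_neg h]
    simp

theorem HJ8 (hALG : ALG_stmt) (hTF8 : TF8_stmt) : HJ8_stmt := by
  classical
  intro κ A hκ hκ1 hA
  obtain ⟨C, N₀, hC, hN₀, hB⟩ := hTF8 κ A hκ hκ1 hA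
  refine ⟨C, max N₀ 10, hC, hN₀.trans (le_max_left _ _), ?_⟩
  intro N Y hN hY hY2
  have hN0 : N₀ ≤ N := (le_max_left _ _).trans hN
  have hN10 : (10 : ℝ) ≤ N := (le_max_right _ _).trans hN
  have hex := HJ8_one hALG κ N Y hN10
  choose! FD hFD1 hFD2 using hex
  have hdisj : ∀ D ∈ DN N, ∀ D' ∈ DN N, D ≠ D' → Disjoint (FD D) (FD D') := by
    intro D hD D' hD' hne
    rw [Finset.disjoint_left]
    intro x hx hx'
    have h1 := (hFD2 D hD x hx).2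
    have h2 := (hFD2 D' hD' x hx').2
    rw [h1] at h2
    have h4 : 1 ≤ x.1 := (hFD2 D hD x hx).1.1
    have h3 : (x.1 : ℤ) ^ 2 ≠ 0 := pow_ne_zero 2 (by exact_mod_cast (by omega : x.1 ≠ 0))
    exact hne (mul_right_cancel₀ h3 h2)
  have hcard : (((DN N).biUnion FD).card : ℝ) = TD7 (fG8 κ Y) N := by
    unfold TD7
    rw [card_biUnion hdisj, Nat.cast_sum]
    exact Finset.sum_congr rfl fun D hD => hFD1 D hD
  rw [← hcard]
  refine hB N Y hN0 hY hY2 _ ?_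
  intro x hx
  obtain ⟨D, hD, hxD⟩ := mem_biUnion.1 hx
  exact (hFD2 D hD x hxD).1

end Pool.Agent.T8
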